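import Mathlib

/-!
# Solutions of the quartics of the descent by a 2-isogeny over a local field

`N² = z M⁴ + a M² e² + (b / z) e⁴`: a non-trivial solution gives one with `N`, `M` and `e` all
non-zero, and so a point `(x, y)`, `y ≠ 0`, of `y² = x³ + a x² + b x` with `x z` a square.
-/

set_option autoImplicit false

open Filter Topology

namespace Pool.Agent.V11280.SL

section

variable {K : Type} [NontriviallyNormedField K] [CompleteSpace K] [CharZero K]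

/-- the squares near a non-zero square -/
lemma sq_nhds {n : K} (hn : n ≠ 0) : {y : K | ∃ t, t ≠ 0 ∧ t ^ 2 = y} ∈ 𝓝 (n ^ 2) := by
  have h : HasStrictDerivAt (fun x : K => x ^ 2) (2 * n) n := by
    simpa using hasStrictDerivAt_pow 2 n
  have h2 := h.map_nhds_eq (mul_ne_zero two_ne_zero hn)
  rw [← h2, mem_map]
  filter_upwards [isOpen_ne.mem_nhds hn] with t ht
  exact ⟨t, ht, rfl⟩

lemma exists_sq_of_ne {F : K → K} {x₀ n : K} (hF : ContinuousAt F x₀) (hn : n ≠ 0)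
    (h : n ^ 2 = F x₀) : ∃ x, x ≠ x₀ ∧ ∃ t, t ≠ 0 ∧ t ^ 2 = F x := by
  have h1 : ∀ᶠ x in 𝓝 x₀, ∃ t, t ≠ 0 ∧ t ^ 2 = F x := by
    have := hF.eventually (p := fun y => ∃ t, t ≠ 0 ∧ t ^ 2 = y) (by
      rw [← h]
      exact sq_nhds hn)
    exact this
  have h2 : ∃ᶠ x in 𝓝[≠] x₀, True := by
    rw [frequently_true_iff_neBot]
    infer_instance
  obtain ⟨x, -, hx, hne⟩ := (h2.and_eventually
    ((h1.filter_mono nhdsWithin_le_nhds).and self_mem_nhdsWithin)).exists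
  exact ⟨x, hne, hx⟩

lemma exists_sq_of_zero {F : K → K} {x₀ F' : K} (hF : HasStrictDerivAt F F' x₀) (hF' : F' ≠ 0)
    (h : F x₀ = 0) {U : Set K} (hU : U ∈ 𝓝 x₀) : ∃ x ∈ U, ∃ t, t ≠ 0 ∧ t ^ 2 = F x := by
  have h1 : F '' U ∈ 𝓝 (0 : K) := by
    rw [← h, ← hF.map_nhds_eq hF']
    exact image_mem_map hU
  have h2 : ∀ᶠ t in 𝓝 (0 : K), t ^ 2 ∈ F '' U := by
    have hc : ContinuousAt (fun t : K => t ^ 2) 0 := by fun_prop
    refine hc.eventually (p := fun y => y ∈ F '' U) ?_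
    have e : (fun t : K => t ^ 2) 0 = 0 := zero_pow two_ne_zero
    rw [e]
    exact h1
  have h3 : ∃ᶠ x in 𝓝[≠] (0 : K), True := by
    rw [frequently_true_iff_neBot]
    infer_instance
  obtain ⟨t, -, ⟨x, hx, hxt⟩, hne⟩ := (h3.and_eventually
    ((h2.filter_mono nhdsWithin_le_nhds).and self_mem_nhdsWithin)).exists
  exact ⟨x, hx, t, hne, hxt.symm⟩

/-- **non-degenerate solutions** -/
theorem nondeg {a b z N M e : K} (hz : z ≠ 0) (hb : b ≠ 0) (hab : a ^ 2 - 4 * b ≠ 0)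
    (hMe : M ≠ 0 ∨ e ≠ 0) (h : N ^ 2 = z * M ^ 4 + a * M ^ 2 * e ^ 2 + b / z * e ^ 4) :
    ∃ N M e : K, N ≠ 0 ∧ M ≠ 0 ∧ e ≠ 0 ∧
      N ^ 2 = z * M ^ 4 + a * M ^ 2 * e ^ 2 + b / z * e ^ 4 := by
  by_cases he : e = 0
  · subst he
    have hM : M ≠ 0 := hMe.resolve_right (by simp)
    have hN : N ≠ 0 := by
      rintro rfl
      have : z * M ^ 4 = 0 := by
        rw [← sub_eq_zero] at h
        linear_combination -h
      exact mul_ne_zero hz (pow_ne_zero 4 hM) this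
    obtain ⟨x, hx, t, ht, hxt⟩ := exists_sq_of_ne
      (F := fun e : K => z * M ^ 4 + a * M ^ 2 * e ^ 2 + b / z * e ^ 4) (x₀ := 0) (n := N)
      (by fun_prop) hN h
    exact ⟨t, M, x, ht, hM, hx, hxt⟩
  by_cases hM : M = 0
  · subst hM
    have hN : N ≠ 0 := by
      rintro rfl
      have : b / z * e ^ 4 = 0 := by
        rw [← sub_eq_zero] at h
        linear_combination -h
      exact mul_ne_zero (div_ne_zero hb hz) (pow_ne_zero 4 he) this
    obtain ⟨x, hx, t, ht, hxt⟩ := exists_sq_of_ne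
      (F := fun M : K => z * M ^ 4 + a * M ^ 2 * e ^ 2 + b / z * e ^ 4) (x₀ := 0) (n := N)
      (by fun_prop) hN h
    exact ⟨t, x, e, ht, hx, he, hxt⟩
  by_cases hN : N = 0
  · subst hN
    have h0 : z * M ^ 4 + a * M ^ 2 * e ^ 2 + b / z * e ^ 4 = 0 := by
      rw [← h]; ring
    have hd : HasStrictDerivAt (fun M : K => z * M ^ 4 + a * M ^ 2 * e ^ 2 + b / z * e ^ 4)
        (z * (4 * M ^ 3) + a * (2 * M) * e ^ 2) M := by
      have h1 : HasStrictDerivAt (fun M : K => z * M ^ 4) (z * (4 * M ^ 3)) M := by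
        simpa using (hasStrictDerivAt_pow 4 M).const_mul z
      have h2 : HasStrictDerivAt (fun M : K => a * M ^ 2 * e ^ 2) (a * (2 * M) * e ^ 2) M := by
        simpa using ((hasStrictDerivAt_pow 2 M).const_mul a).mul_const (e ^ 2)
      exact (h1.add h2).add_const _
    have hne : z * (4 * M ^ 3) + a * (2 * M) * e ^ 2 ≠ 0 := by
      intro h1
      have h2 : 2 * z * M ^ 2 + a * e ^ 2 = 0 := by
        have h3 : (2 * M) * (2 * z * M ^ 2 + a * e ^ 2) = 0 := by linear_combination h1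
        exact (mul_eq_zero.1 h3).resolve_left (mul_ne_zero two_ne_zero hM)
      have h4 : (a ^ 2 - 4 * b) * e ^ 4 = 0 := by
        have h5 : 4 * z * (z * M ^ 4 + a * M ^ 2 * e ^ 2 + b / z * e ^ 4) = 0 := by
          rw [h0, mul_zero]
        have h6 : 4 * z * (z * M ^ 4 + a * M ^ 2 * e ^ 2 + b / z * e ^ 4) =
            4 * z * (z * M ^ 4 + a * M ^ 2 * e ^ 2) + 4 * b * e ^ 4 := by
          field_simp
        rw [h6] at h5
        linear_combination (2 * z * M ^ 2 + a * e ^ 2) * h2 - h5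
      exact mul_ne_zero hab (pow_ne_zero 4 he) h4
    obtain ⟨x, hx, t, ht, hxt⟩ := exists_sq_of_zero hd hne h0 (isOpen_ne.mem_nhds hM)
    exact ⟨t, x, e, ht, hx, he, hxt⟩
  · exact ⟨N, M, e, hN, hM, he, h⟩

/-- **the point** -/
theorem point {a b z N M e : K} (hz : z ≠ 0) (hb : b ≠ 0) (hab : a ^ 2 - 4 * b ≠ 0)
    (hMe : M ≠ 0 ∨ e ≠ 0) (h : N ^ 2 = z * M ^ 4 + a * M ^ 2 * e ^ 2 + b / z * e ^ 4) :
    ∃ x y : K, y ≠ 0 ∧ y ^ 2 = x ^ 3 + a * x ^ 2 + b * x ∧ IsSquare (x * z) := by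
  obtain ⟨N, M, e, hN, hM, he, h⟩ := nondeg hz hb hab hMe h
  refine ⟨z * M ^ 2 / e ^ 2, z * M * N / e ^ 3,
    div_ne_zero (mul_ne_zero (mul_ne_zero hz hM) hN) (pow_ne_zero 3 he), ?_,
    ⟨z * M / e, by field_simp⟩⟩
  have h1 : (z * M * N / e ^ 3) ^ 2 = z ^ 2 * M ^ 2 * N ^ 2 / e ^ 6 := by
    field_simp
  rw [h1, h]
  field_simp

end

section

variable {K : Type} [Field K]

/-- a solution from a point of the isogenous curve -/
lemma solution {a b d X Y r : K} (hX : X ≠ 0)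
    (h : Y ^ 2 = X ^ 3 + a * X ^ 2 + b * X) (hXr : X = d * r ^ 2) :
    ∃ N M e : K, (M ≠ 0 ∨ e ≠ 0) ∧ N ^ 2 = d * M ^ 4 + a * M ^ 2 * e ^ 2 + b / d * e ^ 4 := by
  have hd : d ≠ 0 := by rintro rfl; apply hX; rw [hXr, zero_mul]
  have hr : r ≠ 0 := by rintro rfl; apply hX; rw [hXr]; ring
  refine ⟨Y / (d * r), r, 1, Or.inl hr, ?_⟩
  rw [div_pow, h, hXr]
  field_simp

/-- the translate of the point by `(0, 0)` -/
lemma translate {a b d X Y r : K} (hX : X ≠ 0) (hb : b ≠ 0)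
    (h : Y ^ 2 = X ^ 3 + a * X ^ 2 + b * X) (hXr : X = d * r ^ 2) {d' s : K} (hs : b = d' * d * s ^ 2) :
    ∃ X Y r : K, X ≠ 0 ∧ Y ^ 2 = X ^ 3 + a * X ^ 2 + b * X ∧ X = d' * r ^ 2 := by
  have hd : d ≠ 0 := by rintro rfl; apply hX; rw [hXr, zero_mul]
  have hr : r ≠ 0 := by rintro rfl; apply hX; rw [hXr]; ring
  refine ⟨b / X, b * Y / X ^ 2, s / r, div_ne_zero hb hX, ?_, ?_⟩
  · have e1 : (b * Y / X ^ 2) ^ 2 = b ^ 2 * Y ^ 2 / X ^ 4 := by field_simp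
    rw [e1, h]
    field_simp
    ring
  · rw [hXr, hs]
    field_simp

end

end Pool.Agent.V11280.SL
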